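import Mathlib

/-!
Acyclic colourings: definitions, and the two local obstructions (two-coloured four cycles and
two-coloured paths with six vertices).
-/

set_option autoImplicit false

namespace Pool.Agent.Lib.Acyc

open SimpleGraph

/-- An acyclic colouring: a proper vertex colouring in which the union of any two colour classes
induces a forest. -/
def IsAcyclicColouring {V : Type*} (G : SimpleGraph V) {α : Type*} (C : V → α) : Prop :=
  (∀ u v : V, G.Adj u v → C u ≠ C v) ∧
    ∀ a b : α, (G.induce {v : V | C v = a ∨ C v = b}).IsAcyclic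

/-- The acyclic chromatic number: the least number of colours of an acyclic colouring. -/
noncomputable def acyclicChromatic {V : Type*} (G : SimpleGraph V) : ℕ :=
  sInf {k : ℕ | ∃ C : V → Fin k, IsAcyclicColouring G C}

/-- The largest acyclic chromatic number of a finite graph with maximum degree at most `D`. -/
noncomputable def f (D : ℕ) : ℕ :=
  sSup {k : ℕ | ∃ (n : ℕ) (G : SimpleGraph (Fin n)),
    (∀ v : Fin n, (G.neighborSet v).ncard ≤ D) ∧ k = acyclicChromatic G}

section local_obstructions

variable {V : Type*} {G : SimpleGraph V} {α : Type*} {C : V → α}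

/-- In a walk inside two colour classes of a proper colouring, colours alternate. -/
lemma colour_getVert_add_two (hproper : ∀ u v : V, G.Adj u v → C u ≠ C v) {a b : α}
    {x y : {v : V | C v = a ∨ C v = b}}
    (w : (G.induce {v : V | C v = a ∨ C v = b}).Walk x y) {i : ℕ} (hi : i + 2 ≤ w.length) :
    C (w.getVert (i + 2)).1 = C (w.getVert i).1 := by
  have h1 : G.Adj (w.getVert i).1 (w.getVert (i + 1)).1 := w.adj_getVert_succ (by omega)
  have h2 : G.Adj (w.getVert (i + 1)).1 (w.getVert (i + 1 + 1)).1 :=
    w.adj_getVert_succ (by omega)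
  have e1 := hproper _ _ h1
  have e2 := hproper _ _ h2
  have m0 := (w.getVert i).2
  have m1 := (w.getVert (i + 1)).2
  have m2 := (w.getVert (i + 1 + 1)).2
  simp only [Set.mem_setOf_eq] at m0 m1 m2
  show C (w.getVert (i + 1 + 1)).1 = C (w.getVert i).1
  rcases m0 with m0 | m0 <;> rcases m1 with m1 | m1 <;> rcases m2 with m2 | m2 <;>
    simp_all

/-- A proper colouring without two-coloured four cycles and without two-coloured paths on six
vertices is acyclic. -/
theorem isAcyclicColouring_of_forall (hproper : ∀ u v : V, G.Adj u v → C u ≠ C v)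
    (hC4 : ∀ u v w z : V, G.Adj u v → G.Adj v w → G.Adj w z → G.Adj z u → u ≠ w → v ≠ z →
      C u = C w → C v = C z → False)
    (hP6 : ∀ p : Fin 6 → V, Function.Injective p →
      (∀ i : Fin 5, G.Adj (p i.castSucc) (p i.succ)) →
      C (p 0) = C (p 2) → C (p 2) = C (p 4) → C (p 1) = C (p 3) → C (p 3) = C (p 5) → False) :
    IsAcyclicColouring G C := by
  refine ⟨hproper, fun a b => ?_⟩
  intro x w hw
  have hlen : 3 ≤ w.length := hw.three_le_length
  have halt := fun {i : ℕ} (hi : i + 2 ≤ w.length) => colour_getVert_add_two hproper w hi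
  have hinj := hw.getVert_injOn'
  have hend : w.getVert w.length = w.getVert 0 := by simp
  -- even length
  have heven : Even w.length := by
    by_contra hodd
    rw [Nat.not_even_iff_odd] at hodd
    obtain ⟨k, hk⟩ := hodd
    have key : ∀ j : ℕ, 2 * j + 1 ≤ w.length →
        C (w.getVert (2 * j + 1)).1 = C (w.getVert 1).1 := by
      intro j
      induction j with
      | zero => intro _; rfl
      | succ j ih =>
        intro hj
        have := halt (i := 2 * j + 1) (by omega)
        rw [show 2 * (j + 1) + 1 = 2 * j + 1 + 2 by ring, this]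
        exact ih (by omega)
    have h1 := key k (by omega)
    rw [← hk, hend] at h1
    have h01 : G.Adj (w.getVert 0).1 (w.getVert (0 + 1)).1 := w.adj_getVert_succ (by omega)
    exact hproper _ _ h01 h1
  have hadj : ∀ i : ℕ, i < w.length → G.Adj (w.getVert i).1 (w.getVert (i + 1)).1 :=
    fun i hi => w.adj_getVert_succ hi
  have hne : ∀ i j : ℕ, i < w.length → j < w.length → i ≠ j →
      (w.getVert i).1 ≠ (w.getVert j).1 := by
    intro i j hi hj hij h
    exact hij (hinj (by simp; omega) (by simp; omega) (Subtype.ext h))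
  rcases Nat.lt_or_ge w.length 5 with h5 | h5
  · have h4 : w.length = 4 := by
      obtain ⟨k, hk⟩ := heven
      omega
    have e30 : G.Adj (w.getVert 3).1 (w.getVert 0).1 := by
      have := hadj 3 (by omega)
      rwa [show 3 + 1 = w.length by omega, hend] at this
    exact hC4 _ _ _ _ (hadj 0 (by omega)) (hadj 1 (by omega)) (hadj 2 (by omega)) e30
      (hne 0 2 (by omega) (by omega) (by omega)) (hne 1 3 (by omega) (by omega) (by omega))
      (halt (i := 0) (by omega)).symm (halt (i := 1) (by omega)).symm
  · have h6 : 6 ≤ w.length := by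
      obtain ⟨k, hk⟩ := heven
      omega
    refine hP6 (fun i => (w.getVert i.1).1) ?_ ?_ ?_ ?_ ?_ ?_
    · intro i j hij
      by_contra hne'
      exact hne i.1 j.1 (by omega) (by omega) (fun h => hne' (Fin.ext h)) hij
    · intro i
      exact hadj i.1 (by omega)
    · exact (halt (i := 0) (by omega)).symm
    · exact (halt (i := 2) (by omega)).symm
    · exact (halt (i := 1) (by omega)).symm
    · exact (halt (i := 3) (by omega)).symm

/-- An acyclic colouring has no two-coloured four cycle. -/
theorem IsAcyclicColouring.not_C4 (h : IsAcyclicColouring G C) {u v w z : V}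
    (huv : G.Adj u v) (hvw : G.Adj v w) (hwz : G.Adj w z) (hzu : G.Adj z u)
    (hvz : v ≠ z) (huw : u ≠ w) (hC1 : C u = C w) (hC2 : C v = C z) : False := by
  have hac := h.2 (C u) (C v)
  let S : Set V := {y : V | C y = C u ∨ C y = C v}
  let u' : S := ⟨u, Or.inl rfl⟩
  let v' : S := ⟨v, Or.inr rfl⟩
  let w' : S := ⟨w, Or.inl hC1.symm⟩
  let z' : S := ⟨z, Or.inr hC2.symm⟩
  have a1 : (G.induce S).Adj u' v' := huv
  have a2 : (G.induce S).Adj v' w' := hvw
  have a3 : (G.induce S).Adj u' z' := hzu.symm
  have a4 : (G.induce S).Adj z' w' := hwz.symm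
  have huw' : u' ≠ w' := fun e => huw (congrArg Subtype.val e)
  let p1 : (G.induce S).Walk u' w' := Walk.cons a1 (Walk.cons a2 Walk.nil)
  let p2 : (G.induce S).Walk u' w' := Walk.cons a3 (Walk.cons a4 Walk.nil)
  have hp1 : p1.IsPath := by
    simp only [p1, Walk.cons_isPath_iff, Walk.support_cons, Walk.support_nil]
    refine ⟨⟨Walk.IsPath.nil, ?_⟩, ?_⟩
    · simpa using a2.ne
    · simp only [List.mem_cons, List.not_mem_nil, or_false, not_or]
      exact ⟨a1.ne, huw'⟩
  have hp2 : p2.IsPath := by
    simp only [p2, Walk.cons_isPath_iff, Walk.support_cons, Walk.support_nil]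
    refine ⟨⟨Walk.IsPath.nil, ?_⟩, ?_⟩
    · simpa using a4.ne
    · simp only [List.mem_cons, List.not_mem_nil, or_false, not_or]
      exact ⟨a3.ne, huw'⟩
  have := hac.path_unique ⟨p1, hp1⟩ ⟨p2, hp2⟩
  have h2 : p1.support = p2.support := by
    have := congrArg (fun q : (G.induce S).Path u' w' => q.1.support) this
    exact this
  simp only [p1, p2, Walk.support_cons, Walk.support_nil, List.cons.injEq, and_true,
    true_and] at h2
  exact hvz (congrArg Subtype.val h2)

end local_obstructions

/-- The map giving all vertices different colours is an acyclic colouring. -/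
theorem isAcyclicColouring_of_injective {V : Type*} (G : SimpleGraph V) {α : Type*} (C : V → α)
    (hC : Function.Injective C) : IsAcyclicColouring G C := by
  refine isAcyclicColouring_of_forall (fun u v h e => h.ne (hC e)) ?_ ?_
  · intro u v w z _ _ _ _ huw _ h _
    exact huw (hC h)
  · intro p hp _ h _ _ _
    exact absurd (hp (hC h)) (by decide)

theorem exists_acyclicColouring_acyclicChromatic {V : Type*} [Finite V] (G : SimpleGraph V) :
    ∃ C : V → Fin (acyclicChromatic G), IsAcyclicColouring G C := by
  have hne : {k : ℕ | ∃ C : V → Fin k, IsAcyclicColouring G C}.Nonempty := by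
    obtain ⟨n, ⟨e⟩⟩ := Finite.exists_equiv_fin V
    exact ⟨n, e, isAcyclicColouring_of_injective G e e.injective⟩
  exact Nat.sInf_mem hne

theorem acyclicChromatic_le {V : Type*} (G : SimpleGraph V) {k : ℕ} (C : V → Fin k)
    (h : IsAcyclicColouring G C) : acyclicChromatic G ≤ k :=
  Nat.sInf_le ⟨C, h⟩

end Pool.Agent.Lib.Acyc
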