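import Pool.Agent.Lib.Acyc.Defs

/-!
The Alon, McDiarmid and Reed lower bound for the acyclic chromatic number of graphs of maximum
degree `D`, by a random graph.
-/

set_option autoImplicit false

namespace Pool.Agent.Lib.Acyc

open SimpleGraph Finset

namespace Lower

section counting

variable {E : Type*} [Fintype E] [DecidableEq E] {q : ℕ} [NeZero q]

/-- indicator that `ω` vanishes on `U` -/
noncomputable def ind (U : Finset E) (ω : E → Fin q) : ℝ :=
  ∏ e ∈ U, if ω e = 0 then (1 : ℝ) else 0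

lemma ind_eq (U : Finset E) (ω : E → Fin q) :
    ind U ω = if (∀ e ∈ U, ω e = 0) then (1 : ℝ) else 0 := by
  unfold ind
  split_ifs with h
  · exact prod_eq_one (fun e he => by rw [if_pos (h e he)])
  · push Not at h
    obtain ⟨e, he, hne⟩ := h
    exact prod_eq_zero he (by rw [if_neg hne])

lemma sum_ind (U : Finset E) :
    ∑ ω : E → Fin q, ind U ω = (q : ℝ) ^ (Fintype.card E) * ((q : ℝ)⁻¹) ^ U.card := by
  have hq : (q : ℝ) ≠ 0 := by exact_mod_cast NeZero.ne q
  have h1 : ∀ ω : E → Fin q,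
      ind U ω = ∏ e : E, (if e ∈ U then (if ω e = 0 then (1 : ℝ) else 0) else 1) := by
    intro ω
    unfold ind
    rw [Finset.prod_ite_mem, Finset.univ_inter]
  simp_rw [h1]
  have h2 := Finset.prod_univ_sum (fun _ : E => (Finset.univ : Finset (Fin q)))
    (fun e x => (if e ∈ U then (if x = 0 then (1 : ℝ) else 0) else 1))
  rw [Fintype.piFinset_univ] at h2
  rw [← h2]
  have h3 : ∀ e : E, (∑ x : Fin q, (if e ∈ U then (if x = 0 then (1 : ℝ) else 0) else 1))
      = q * (if e ∈ U then (q : ℝ)⁻¹ else 1) := by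
    intro e
    split_ifs with he
    · simp [hq]
    · simp
  simp_rw [h3]
  rw [Finset.prod_mul_distrib, Finset.prod_const, Finset.card_univ, Finset.prod_ite_mem,
    Finset.univ_inter, Finset.prod_const]

/-- number of `ω` for which no block vanishes -/
lemma card_avoid {ι : Type*} (T : Finset ι) (B : ι → Finset E) (b : ℕ)
    (hcard : ∀ t ∈ T, (B t).card = b) (hdisj : (T : Set ι).PairwiseDisjoint B)
    (A : Finset (E → Fin q)) (hA : ∀ ω, ω ∈ A ↔ ∀ t ∈ T, ∃ e ∈ B t, ω e ≠ 0) :
    (A.card : ℝ)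
      = (q : ℝ) ^ (Fintype.card E) * (1 - ((q : ℝ)⁻¹) ^ b) ^ T.card := by
  classical
  have hA' : A = univ.filter (fun ω : E → Fin q => ∀ t ∈ T, ∃ e ∈ B t, ω e ≠ 0) := by
    ext ω
    rw [hA, mem_filter]
    simp
  rw [hA']
  have h1 : ∀ ω : E → Fin q,
      (if (∀ t ∈ T, ∃ e ∈ B t, ω e ≠ 0) then (1 : ℝ) else 0)
        = ∏ t ∈ T, (-(ind (B t) ω) + 1) := by
    intro ω
    split_ifs with h
    · symm
      apply prod_eq_one
      intro t ht
      obtain ⟨e, he, hne⟩ := h t ht
      rw [ind_eq, if_neg (fun h' => hne (h' e he))]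
      ring
    · push Not at h
      obtain ⟨t, ht, h⟩ := h
      symm
      apply prod_eq_zero ht
      rw [ind_eq, if_pos h]
      ring
  rw [Finset.card_filter]
  push_cast
  simp_rw [h1, Finset.prod_add]
  rw [Finset.sum_comm]
  have h2 : (1 - ((q : ℝ)⁻¹) ^ b) ^ T.card = ∏ t ∈ T, (-(((q : ℝ)⁻¹) ^ b) + 1) := by
    rw [Finset.prod_const]
    ring
  rw [h2, Finset.prod_add, Finset.mul_sum]
  apply Finset.sum_congr rfl
  intro S hS
  rw [Finset.mem_powerset] at hS
  simp only [Finset.prod_const_one, mul_one]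
  have h3 : ∀ ω : E → Fin q,
      ∏ t ∈ S, -(ind (B t) ω) = (-1) ^ S.card * ind (S.biUnion B) ω := by
    intro ω
    rw [Finset.prod_neg]
    congr 1
    unfold ind
    rw [Finset.prod_biUnion]
    intro s hs t ht hst
    exact hdisj (hS hs) (hS ht) hst
  simp_rw [h3]
  rw [← Finset.mul_sum, sum_ind, Finset.card_biUnion
    (fun s hs t ht hst => hdisj (hS hs) (hS ht) hst)]
  rw [Finset.sum_congr rfl (fun t ht => hcard t (hS ht)), Finset.sum_const, Finset.prod_const,
    smul_eq_mul, mul_comm S.card b, pow_mul, neg_pow (((q : ℝ)⁻¹) ^ b) S.card]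
  ring

end counting

section pairs

/-- the pairs `i < j` -/
def T (m : ℕ) : Finset (Fin m × Fin m) := univ.filter (fun p => p.1 < p.2)

lemma card_T (m : ℕ) : (T m).card * 2 = m * (m - 1) := by
  classical
  have h1 : (T m).card = ((T m).image Prod.swap).card :=
    (card_image_of_injective _ Prod.swap_injective).symm
  have h2 : Disjoint (T m) ((T m).image Prod.swap) := by
    rw [Finset.disjoint_left]
    rintro ⟨a, b⟩ h h'
    simp only [T, mem_filter, mem_univ, true_and, mem_image, Prod.exists, Prod.swap_prod_mk,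
      Prod.mk.injEq] at h h'
    obtain ⟨c, d, h3, h4, h5⟩ := h'
    subst h4; subst h5
    exact absurd h3 (not_lt_of_gt h)
  have h3 : (T m) ∪ ((T m).image Prod.swap) = (univ : Finset (Fin m)).offDiag := by
    ext ⟨a, b⟩
    simp only [T, mem_union, mem_filter, mem_univ, true_and, mem_image, Prod.exists,
      Prod.swap_prod_mk, Prod.mk.injEq, mem_offDiag]
    constructor
    · rintro (h | ⟨c, d, h3, h4, h5⟩)
      · exact ne_of_lt h
      · subst h4; subst h5
        exact (ne_of_lt h3).symm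
    · intro h
      rcases lt_or_gt_of_ne h with h | h
      · exact Or.inl h
      · exact Or.inr ⟨b, a, h, rfl, rfl⟩
  have h4 := congrArg Finset.card h3
  rw [card_union_of_disjoint h2, ← h1, offDiag_card, card_univ, Fintype.card_fin] at h4
  rw [mul_two, h4, Nat.mul_sub, mul_one]

end pairs

section random_graph

variable {n q m : ℕ} [NeZero q]

/-- the graph of the zeros of `ω` -/
def rg (ω : Sym2 (Fin n) → Fin q) : SimpleGraph (Fin n) where
  Adj u v := u ≠ v ∧ ω s(u, v) = 0
  symm := ⟨fun u v h => ⟨h.1.symm, by rw [Sym2.eq_swap]; exact h.2⟩⟩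
  loopless := ⟨fun u h => h.1 rfl⟩

/-- the block of four pairs joining two of the given pairs -/
def block (s : Fin m × Bool → Fin n) (t : Fin m × Fin m) : Finset (Sym2 (Fin n)) :=
  (univ : Finset (Bool × Bool)).image (fun ab => s(s (t.1, ab.1), s (t.2, ab.2)))

lemma mem_block (s : Fin m × Bool → Fin n) (t : Fin m × Fin m) (e : Sym2 (Fin n)) :
    e ∈ block s t ↔ ∃ a b : Bool, s(s (t.1, a), s (t.2, b)) = e := by
  simp [block]

lemma card_block {s : Fin m × Bool → Fin n} (hs : Function.Injective s) {t : Fin m × Fin m}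
    (ht : t ∈ T m) : (block s t).card = 4 := by
  unfold block
  have ht' : t.1 < t.2 := by simpa [T] using ht
  rw [card_image_of_injective]
  · rfl
  · rintro ⟨a, b⟩ ⟨c, d⟩ h
    simp only [Sym2.eq_iff] at h
    rcases h with ⟨h1, h2⟩ | ⟨h1, h2⟩
    · have := hs h1
      have := hs h2
      simp_all
    · have := hs h1
      simp only [Prod.mk.injEq] at this
      exact absurd this.1 (ne_of_lt ht')

lemma disj_block {s : Fin m × Bool → Fin n} (hs : Function.Injective s) :
    ((T m : Finset (Fin m × Fin m)) : Set (Fin m × Fin m)).PairwiseDisjoint (block s) := by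
  rintro ⟨i, j⟩ ht ⟨k, l⟩ ht' hne
  simp only [Function.onFun]
  rw [Finset.disjoint_left]
  intro e he he'
  rw [mem_block] at he he'
  obtain ⟨a, b, h1⟩ := he
  obtain ⟨c, d, h2⟩ := he'
  rw [← h2] at h1
  have hij : i < j := by simpa [T] using ht
  have hkl : k < l := by simpa [T] using ht'
  simp only [Sym2.eq_iff] at h1
  rcases h1 with ⟨h1, h3⟩ | ⟨h1, h3⟩
  · have e1 := hs h1
    have e2 := hs h3
    simp only [Prod.mk.injEq] at e1 e2
    exact hne (by rw [e1.1, e2.1])
  · have e1 := hs h1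
    have e2 := hs h3
    simp only [Prod.mk.injEq] at e1 e2
    rw [e1.1, e2.1] at hij
    exact absurd hij (not_lt_of_gt hkl)

open Classical in
/-- number of ordered adjacent pairs -/
noncomputable def Z (ω : Sym2 (Fin n) → Fin q) : ℝ :=
  ∑ u : Fin n, ∑ v : Fin n, if (rg ω).Adj u v then (1 : ℝ) else 0

lemma Z_nonneg (ω : Sym2 (Fin n) → Fin q) : 0 ≤ Z ω := by
  unfold Z
  positivity

lemma sum_Z_le : ∑ ω : Sym2 (Fin n) → Fin q, Z ω
    ≤ (q : ℝ) ^ (Fintype.card (Sym2 (Fin n))) * ((n : ℝ) ^ 2 / q) := by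
  classical
  unfold Z
  rw [Finset.sum_comm]
  calc ∑ u : Fin n, ∑ ω : Sym2 (Fin n) → Fin q, ∑ v : Fin n,
        (if (rg ω).Adj u v then (1 : ℝ) else 0)
      = ∑ u : Fin n, ∑ v : Fin n, ∑ ω : Sym2 (Fin n) → Fin q,
        (if (rg ω).Adj u v then (1 : ℝ) else 0) := by
        apply Finset.sum_congr rfl
        intro u _
        rw [Finset.sum_comm]
    _ ≤ ∑ u : Fin n, ∑ v : Fin n,
        ((q : ℝ) ^ (Fintype.card (Sym2 (Fin n))) * (q : ℝ)⁻¹) := by
        apply Finset.sum_le_sum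
        intro u _
        apply Finset.sum_le_sum
        intro v _
        have h := sum_ind (q := q) ({s(u, v)} : Finset (Sym2 (Fin n)))
        rw [card_singleton, pow_one] at h
        rw [← h]
        apply Finset.sum_le_sum
        intro ω _
        rw [ind_eq]
        split_ifs with h1 h2 h2
        · exact le_refl _
        · exact absurd (by simpa using h1.2) h2
        · exact zero_le_one
        · exact le_refl _
    _ = _ := by
        rw [Finset.sum_const, Finset.sum_const, card_univ, Fintype.card_fin]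
        simp only [nsmul_eq_mul]
        ring

/-- existence of a good sample -/
lemma exists_omega (hn : 0 < n)
    (hcount : (n : ℝ) ^ (2 * m) * (1 - ((q : ℝ)⁻¹) ^ 4) ^ (T m).card < 1 / 2) :
    ∃ ω : Sym2 (Fin n) → Fin q, Z ω ≤ 2 * (n : ℝ) ^ 2 / q ∧
      ∀ s : Fin m × Bool → Fin n, Function.Injective s →
        ∃ i j : Fin m, i < j ∧ ∀ a b : Bool, ω s(s (i, a), s (j, b)) = 0 := by
  classical
  by_contra hcon
  push Not at hcon
  have hq : (0 : ℝ) < q := by exact_mod_cast Nat.pos_of_ne_zero (NeZero.ne q)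
  set Q : ℝ := (q : ℝ) ^ (Fintype.card (Sym2 (Fin n))) with hQ
  have hQpos : 0 < Q := by positivity
  set Bad2 : Finset (Sym2 (Fin n) → Fin q) :=
    univ.filter (fun ω => 2 * (n : ℝ) ^ 2 / q < Z ω) with hBad2
  set Bad1 : (Fin m × Bool → Fin n) → Finset (Sym2 (Fin n) → Fin q) := fun s =>
    if Function.Injective s then
      univ.filter (fun ω => ∀ t ∈ T m, ∃ e ∈ block s t, ω e ≠ 0) else ∅ with hBad1
  have hcover : (univ : Finset (Sym2 (Fin n) → Fin q)) ⊆
      Bad2 ∪ (univ : Finset (Fin m × Bool → Fin n)).biUnion Bad1 := by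
    intro ω _
    rw [mem_union]
    by_cases h : 2 * (n : ℝ) ^ 2 / q < Z ω
    · left
      rw [hBad2, mem_filter]
      exact ⟨mem_univ _, h⟩
    · right
      obtain ⟨s, hs, h2⟩ := hcon ω (not_lt.1 h)
      rw [mem_biUnion]
      refine ⟨s, mem_univ _, ?_⟩
      simp only [hBad1, if_pos hs, mem_filter, mem_univ, true_and]
      intro t ht
      obtain ⟨a, b, hab⟩ := h2 t.1 t.2 (by simpa [T] using ht)
      exact ⟨_, (mem_block s t _).2 ⟨a, b, rfl⟩, hab⟩
  have hc := card_le_card hcover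
  have h1 : ∀ s : Fin m × Bool → Fin n, ((Bad1 s).card : ℝ)
      ≤ Q * (1 - ((q : ℝ)⁻¹) ^ 4) ^ (T m).card := by
    intro s
    by_cases hs : Function.Injective s
    · simp only [hBad1, if_pos hs]
      exact le_of_eq (card_avoid (T m) (block s) 4 (fun t ht => card_block hs ht)
        (disj_block hs) _ (fun ω => by rw [mem_filter]; simp))
    · simp only [hBad1, if_neg hs, card_empty, Nat.cast_zero]
      have : (0 : ℝ) ≤ 1 - ((q : ℝ)⁻¹) ^ 4 := by
        have h5 : (q : ℝ)⁻¹ ≤ 1 := by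
          apply inv_le_one_of_one_le₀
          exact_mod_cast Nat.pos_of_ne_zero (NeZero.ne q)
        have h6 : (0 : ℝ) ≤ (q : ℝ)⁻¹ := by positivity
        have := pow_le_one₀ h6 h5 (n := 4)
        linarith
      positivity
  have h2 : (Bad2.card : ℝ) ≤ Q / 2 := by
    have h3 : (Bad2.card : ℝ) * (2 * (n : ℝ) ^ 2 / q) ≤ Q * ((n : ℝ) ^ 2 / q) := by
      calc (Bad2.card : ℝ) * (2 * (n : ℝ) ^ 2 / q) = ∑ ω ∈ Bad2, (2 * (n : ℝ) ^ 2 / q) := by
            rw [Finset.sum_const, nsmul_eq_mul]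
        _ ≤ ∑ ω ∈ Bad2, Z ω := by
            apply Finset.sum_le_sum
            intro ω hω
            rw [hBad2, mem_filter] at hω
            exact hω.2.le
        _ ≤ ∑ ω : Sym2 (Fin n) → Fin q, Z ω :=
            Finset.sum_le_sum_of_subset_of_nonneg (subset_univ _) (fun ω _ _ => Z_nonneg ω)
        _ ≤ _ := sum_Z_le
    have hpos : (0 : ℝ) < (n : ℝ) ^ 2 / q := by positivity
    have h4 : (Bad2.card : ℝ) * 2 * ((n : ℝ) ^ 2 / q) ≤ Q * ((n : ℝ) ^ 2 / q) := by
      calc (Bad2.card : ℝ) * 2 * ((n : ℝ) ^ 2 / q)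
          = (Bad2.card : ℝ) * (2 * (n : ℝ) ^ 2 / q) := by ring
        _ ≤ _ := h3
    have := le_of_mul_le_mul_right h4 hpos
    linarith
  have h3 : (((univ : Finset (Fin m × Bool → Fin n)).biUnion Bad1).card : ℝ)
      ≤ (n : ℝ) ^ (2 * m) * (Q * (1 - ((q : ℝ)⁻¹) ^ 4) ^ (T m).card) := by
    have h4 : (((univ : Finset (Fin m × Bool → Fin n)).biUnion Bad1).card : ℝ)
        ≤ ∑ s : Fin m × Bool → Fin n, ((Bad1 s).card : ℝ) := by
      exact_mod_cast card_biUnion_le
    refine h4.trans ((Finset.sum_le_sum (fun s _ => h1 s)).trans ?_)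
    rw [Finset.sum_const, card_univ, nsmul_eq_mul, Fintype.card_fun, Fintype.card_prod,
      Fintype.card_fin, Fintype.card_fin, Fintype.card_bool, mul_comm m 2]
    push_cast
    exact le_refl _
  have h5 : Q ≤ (Bad2.card : ℝ) +
      (((univ : Finset (Fin m × Bool → Fin n)).biUnion Bad1).card : ℝ) := by
    have h6 : (univ : Finset (Sym2 (Fin n) → Fin q)).card ≤ Bad2.card +
        ((univ : Finset (Fin m × Bool → Fin n)).biUnion Bad1).card :=
      hc.trans (card_union_le _ _)
    rw [card_univ, Fintype.card_fun, Fintype.card_fin] at h6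
    rw [hQ]
    exact_mod_cast h6
  have h7 : (n : ℝ) ^ (2 * m) * (Q * (1 - ((q : ℝ)⁻¹) ^ 4) ^ (T m).card) < Q / 2 := by
    calc (n : ℝ) ^ (2 * m) * (Q * (1 - ((q : ℝ)⁻¹) ^ 4) ^ (T m).card)
        = Q * ((n : ℝ) ^ (2 * m) * (1 - ((q : ℝ)⁻¹) ^ 4) ^ (T m).card) := by ring
      _ < Q * (1 / 2) := by
          exact mul_lt_mul_of_pos_left hcount hQpos
      _ = Q / 2 := by ring
  linarith

end random_graph

section construction

/-- disjoint monochromatic pairs -/
lemma exists_pairs_aux {α : Type*} [Nonempty α] {k : ℕ} (W : Finset α)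
    (C : α → Fin k) (m : ℕ) (h : 2 * m + k ≤ W.card) :
    ∃ s : ℕ → Bool → α, (∀ i < m, ∀ b, s i b ∈ W) ∧ (∀ i < m, C (s i false) = C (s i true)) ∧
      (∀ i < m, ∀ j < m, ∀ a b, s i a = s j b → i = j ∧ a = b) := by
  classical
  induction m with
  | zero =>
    exact ⟨fun _ _ => Classical.arbitrary α, fun i hi => absurd hi (by omega),
      fun i hi => absurd hi (by omega), fun i hi => absurd hi (by omega)⟩
  | succ m ih =>
    obtain ⟨s, h1, h2, h3⟩ := ih (by omega)
    set U : Finset α := (range m ×ˢ (univ : Finset Bool)).image (fun p => s p.1 p.2) with hU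
    have hUcard : U.card ≤ 2 * m := by
      refine card_image_le.trans ?_
      rw [card_product, card_range, card_univ, Fintype.card_bool, mul_comm]
    have hcard : (univ : Finset (Fin k)).card < (W \ U).card := by
      have := le_card_sdiff U W
      rw [card_univ, Fintype.card_fin]
      omega
    obtain ⟨x, hx, y, hy, hxy, hC⟩ := exists_ne_map_eq_of_card_lt_of_maps_to hcard
      (fun (a : α) _ => mem_univ (C a))
    rw [mem_sdiff] at hx hy
    have hnotU : ∀ i < m, ∀ b, s i b ∈ U := fun i hi b => by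
      rw [hU, mem_image]
      exact ⟨(i, b), by simp [hi], rfl⟩
    refine ⟨Function.update s m (fun b => if b then y else x), ?_, ?_, ?_⟩
    · intro i hi b
      by_cases him : i = m
      · subst him
        rw [Function.update_self]
        split_ifs
        · exact hy.1
        · exact hx.1
      · rw [Function.update_of_ne him]
        exact h1 i (by omega) b
    · intro i hi
      by_cases him : i = m
      · subst him
        rw [Function.update_self]
        simpa using hC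
      · rw [Function.update_of_ne him]
        exact h2 i (by omega)
    · intro i hi j hj a b hab
      by_cases him : i = m
      · by_cases hjm : j = m
        · subst him; subst hjm
          refine ⟨rfl, ?_⟩
          rw [Function.update_self] at hab
          cases a <;> cases b <;> simp_all
        · exfalso
          subst him
          rw [Function.update_self, Function.update_of_ne hjm] at hab
          have h5 := hnotU j (by omega) b
          rw [← hab] at h5
          split_ifs at h5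
          · exact hy.2 h5
          · exact hx.2 h5
      · by_cases hjm : j = m
        · exfalso
          subst hjm
          rw [Function.update_self, Function.update_of_ne him] at hab
          have h5 := hnotU i (by omega) a
          rw [hab] at h5
          split_ifs at h5
          · exact hy.2 h5
          · exact hx.2 h5
        · rw [Function.update_of_ne him, Function.update_of_ne hjm] at hab
          exact h3 i (by omega) j (by omega) a b hab

theorem exists_graph (n q m D : ℕ) [NeZero q] (hn : 0 < n)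
    (hcount : (n : ℝ) ^ (2 * m) * (1 - ((q : ℝ)⁻¹) ^ 4) ^ (T m).card < 1 / 2)
    (hD : 8 * n ≤ D * q) (hm : 4 * m ≤ n) :
    ∃ G : SimpleGraph (Fin n), (∀ v : Fin n, (G.neighborSet v).ncard ≤ D) ∧
      ∀ k : ℕ, 4 * k ≤ n → ∀ C : Fin n → Fin k, ¬ IsAcyclicColouring G C := by
  classical
  obtain ⟨ω, hZ, hω⟩ := exists_omega (n := n) (q := q) (m := m) hn hcount
  have hq : (0 : ℝ) < q := by exact_mod_cast Nat.pos_of_ne_zero (NeZero.ne q)
  let dg : Fin n → ℕ := fun u => (univ.filter (fun v => (rg ω).Adj u v)).card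
  let W : Finset (Fin n) := univ.filter (fun u => dg u ≤ D)
  let G : SimpleGraph (Fin n) :=
    { Adj := fun u v => (rg ω).Adj u v ∧ u ∈ W ∧ v ∈ W
      symm := ⟨fun u v h => ⟨h.1.symm, h.2.2, h.2.1⟩⟩
      loopless := ⟨fun u h => (rg ω).loopless.irrefl u h.1⟩ }
  have hZ' : Z ω = ∑ u : Fin n, (dg u : ℝ) := by
    unfold Z
    apply Finset.sum_congr rfl
    intro u _
    simp only [dg]
    rw [Finset.card_filter]
    push_cast
    rfl
  -- few vertices of large degree
  have hWc : 4 * (univ \ W).card ≤ n := by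
    have h1 : ((univ \ W).card : ℝ) * D ≤ 2 * (n : ℝ) ^ 2 / q := by
      calc ((univ \ W).card : ℝ) * D = ∑ u ∈ univ \ W, (D : ℝ) := by
            rw [Finset.sum_const, nsmul_eq_mul]
        _ ≤ ∑ u ∈ univ \ W, (dg u : ℝ) := by
            apply Finset.sum_le_sum
            intro u hu
            simp only [W, mem_sdiff, mem_univ, true_and, mem_filter, not_le] at hu
            exact_mod_cast hu.le
        _ ≤ ∑ u : Fin n, (dg u : ℝ) :=
            Finset.sum_le_sum_of_subset_of_nonneg (subset_univ _)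
              (fun u _ _ => Nat.cast_nonneg _)
        _ = Z ω := hZ'.symm
        _ ≤ _ := hZ
    have h2 : ((univ \ W).card : ℝ) * (8 * n) ≤ 2 * (n : ℝ) ^ 2 := by
      have h3 : (8 * n : ℝ) ≤ D * q := by exact_mod_cast hD
      calc ((univ \ W).card : ℝ) * (8 * n) ≤ ((univ \ W).card : ℝ) * (D * q) := by
            exact mul_le_mul_of_nonneg_left h3 (Nat.cast_nonneg _)
        _ = (((univ \ W).card : ℝ) * D) * q := by ring
        _ ≤ (2 * (n : ℝ) ^ 2 / q) * q := mul_le_mul_of_nonneg_right h1 hq.le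
        _ = 2 * (n : ℝ) ^ 2 := by field_simp
    have hn' : (0 : ℝ) < n := by exact_mod_cast hn
    have h4 : (4 * (univ \ W).card : ℝ) * (2 * n) ≤ n * (2 * n) := by
      calc (4 * (univ \ W).card : ℝ) * (2 * n) = ((univ \ W).card : ℝ) * (8 * n) := by ring
        _ ≤ 2 * (n : ℝ) ^ 2 := h2
        _ = n * (2 * n) := by ring
    have h5 := le_of_mul_le_mul_right h4 (by positivity)
    exact_mod_cast h5
  have hWcard : 3 * n ≤ 4 * W.card := by
    have := card_sdiff_add_card_eq_card (subset_univ W)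
    rw [card_univ, Fintype.card_fin] at this
    omega
  refine ⟨G, ?_, ?_⟩
  · intro v
    by_cases hv : v ∈ W
    · have h1 : G.neighborSet v ⊆ ((univ.filter (fun u => (rg ω).Adj v u) : Finset (Fin n)) :
          Set (Fin n)) := by
        intro u hu
        have hu' : (rg ω).Adj v u ∧ v ∈ W ∧ u ∈ W := hu
        simpa using hu'.1
      refine (Set.ncard_le_ncard h1 (Finset.finite_toSet _)).trans ?_
      rw [Set.ncard_coe_finset]
      simp only [W, mem_filter, mem_univ, true_and] at hv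
      exact hv
    · have h1 : G.neighborSet v = ∅ := by
        ext u
        simp only [Set.mem_empty_iff_false, iff_false]
        intro hu
        have hu' : (rg ω).Adj v u ∧ v ∈ W ∧ u ∈ W := hu
        exact hv hu'.2.1
      rw [h1]
      simp
  · intro k hk C hC
    have : Nonempty (Fin n) := ⟨⟨0, hn⟩⟩
    obtain ⟨s, h1, h2, h3⟩ := exists_pairs_aux W C m (by omega)
    obtain ⟨i, j, hij, hadj⟩ := hω (fun p => s p.1.1 p.2) (by
      rintro ⟨i, a⟩ ⟨j, b⟩ h
      obtain ⟨h4, h5⟩ := h3 i.1 i.2 j.1 j.2 a b h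
      exact Prod.ext (Fin.ext h4) h5)
    have hne : ∀ a b : Bool, s i.1 a ≠ s j.1 b := by
      intro a b h
      exact (ne_of_lt hij) (Fin.ext (h3 i.1 i.2 j.1 j.2 a b h).1)
    have hG : ∀ a b : Bool, G.Adj (s i.1 a) (s j.1 b) := fun a b =>
      ⟨⟨hne a b, hadj a b⟩, h1 i.1 i.2 a, h1 j.1 j.2 b⟩
    refine hC.not_C4 (hG false false) (hG true false).symm (hG true true) (hG false true).symm
      ?_ ?_ (h2 i.1 i.2) (h2 j.1 j.2)
    · intro h
      exact absurd (h3 j.1 j.2 j.1 j.2 false true h).2 (by decide)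
    · intro h
      exact absurd (h3 i.1 i.2 i.1 i.2 false true h).2 (by decide)

end construction

section asymptotics

/-- the growth function `D ^ (4/3) / (log D) ^ (1/3)` -/
noncomputable def gr (D : ℕ) : ℝ := (D : ℝ) ^ (4 / 3 : ℝ) / (Real.log D) ^ (1 / 3 : ℝ)

lemma gr_cube {D : ℕ} (hD : 1 < (D : ℝ)) : gr D ^ 3 * Real.log D = (D : ℝ) ^ 4 := by
  have hD0 : (0 : ℝ) < D := by linarith
  have hL : 0 < Real.log D := Real.log_pos hD
  unfold gr
  rw [div_pow, ← Real.rpow_natCast ((D : ℝ) ^ (4 / 3 : ℝ)) 3, ← Real.rpow_mul hD0.le,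
    ← Real.rpow_natCast ((Real.log D) ^ (1 / 3 : ℝ)) 3, ← Real.rpow_mul hL.le]
  norm_num
  rw [← Real.rpow_natCast (D : ℝ) 4]
  norm_num
  field_simp

lemma gr_nonneg (D : ℕ) : 0 ≤ gr D := by
  unfold gr
  have : (0 : ℝ) ≤ Real.log D := Real.log_natCast_nonneg D
  positivity

/-- Parameters for the random graph. -/
lemma hcount_of {n q m : ℕ} [NeZero q] {D L : ℝ} (hL : 1 ≤ L) (hDpos : 0 < D)
    (hn16 : 16 ≤ n) (hm : n ≤ 4 * m + 3) (hlogn : Real.log n ≤ 2 * L)
    (hn3 : (n : ℝ) ^ 3 * L * 2 ^ 24 ≤ D ^ 4) (hq : (q : ℝ) * D ≤ 9 * n) :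
    (n : ℝ) ^ (2 * m) * (1 - ((q : ℝ)⁻¹) ^ 4) ^ (T m).card < 1 / 2 := by
  have hqpos : (0 : ℝ) < q := by exact_mod_cast Nat.pos_of_ne_zero (NeZero.ne q)
  have hnpos : (0 : ℝ) < n := by
    have : 0 < n := by omega
    exact_mod_cast this
  have hm1 : 1 ≤ m := by omega
  have hmR : (1 : ℝ) ≤ m := by exact_mod_cast hm1
  have hn16' : (16 : ℝ) ≤ n := by exact_mod_cast hn16
  have hmn : (n : ℝ) ≤ 4 * m + 3 := by exact_mod_cast hm
  have hcardT : ((T m).card : ℝ) * 2 = m * (m - 1) := by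
    have h := card_T m
    have h2 : (((T m).card * 2 : ℕ) : ℝ) = ((m * (m - 1) : ℕ) : ℝ) := by rw [h]
    push_cast [Nat.cast_sub hm1] at h2
    exact h2
  -- the base
  have hb0 : (0 : ℝ) ≤ 1 - ((q : ℝ)⁻¹) ^ 4 := by
    have h5 : (q : ℝ)⁻¹ ≤ 1 := by
      apply inv_le_one_of_one_le₀
      exact_mod_cast Nat.pos_of_ne_zero (NeZero.ne q)
    have h6 : (0 : ℝ) ≤ (q : ℝ)⁻¹ := by positivity
    have := pow_le_one₀ h6 h5 (n := 4)
    linarith
  have hb1 : 1 - ((q : ℝ)⁻¹) ^ 4 ≤ Real.exp (-((q : ℝ)⁻¹) ^ 4) := by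
    have := Real.add_one_le_exp (-((q : ℝ)⁻¹) ^ 4)
    linarith
  have h1 : (1 - ((q : ℝ)⁻¹) ^ 4) ^ (T m).card ≤ Real.exp (-(((q : ℝ)⁻¹) ^ 4 * (T m).card)) := by
    calc (1 - ((q : ℝ)⁻¹) ^ 4) ^ (T m).card ≤ (Real.exp (-((q : ℝ)⁻¹) ^ 4)) ^ (T m).card :=
          pow_le_pow_left₀ hb0 hb1 _
      _ = _ := by
          rw [← Real.exp_nat_mul]
          congr 1
          ring
  have h2 : (n : ℝ) ^ (2 * m) = Real.exp (2 * m * Real.log n) := by
    rw [← Real.exp_log (pow_pos hnpos (2 * m)), Real.log_pow]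
    push_cast
    ring_nf
  -- the main inequality
  have hq4 : (q : ℝ) ^ 4 * D ^ 4 ≤ 6561 * (n : ℝ) ^ 4 := by
    have h3 : ((q : ℝ) * D) ^ 4 ≤ (9 * n) ^ 4 := pow_le_pow_left₀ (by positivity) hq 4
    have h4 : (q : ℝ) ^ 4 * D ^ 4 = ((q : ℝ) * D) ^ 4 := by ring
    have h5 : (9 * (n : ℝ)) ^ 4 = 6561 * (n : ℝ) ^ 4 := by ring
    rw [h4, ← h5]
    exact h3
  have hkey : (q : ℝ) ^ 4 * (2 * (2 * Real.log n + 1)) ≤ (m : ℝ) - 1 := by
    have h3 : 2 * (2 * Real.log n + 1) ≤ 10 * L := by linarith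
    have h4 : (q : ℝ) ^ 4 * (2 * (2 * Real.log n + 1)) ≤ (q : ℝ) ^ 4 * (10 * L) :=
      mul_le_mul_of_nonneg_left h3 (by positivity)
    refine h4.trans ?_
    -- q^4 * 10 L <= n / 8
    have h5 : (q : ℝ) ^ 4 * (10 * L) ≤ n / 8 := by
      have h6 : (q : ℝ) ^ 4 * (10 * L) * D ^ 4 ≤ n / 8 * D ^ 4 := by
        calc (q : ℝ) ^ 4 * (10 * L) * D ^ 4 = ((q : ℝ) ^ 4 * D ^ 4) * (10 * L) := by ring
          _ ≤ (6561 * (n : ℝ) ^ 4) * (10 * L) :=
              mul_le_mul_of_nonneg_right hq4 (by positivity)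
          _ = 65610 * (n * ((n : ℝ) ^ 3 * L)) := by ring
          _ ≤ 2 ^ 21 * (n * ((n : ℝ) ^ 3 * L)) := by
              apply mul_le_mul_of_nonneg_right (by norm_num) (by positivity)
          _ = n / 8 * ((n : ℝ) ^ 3 * L * 2 ^ 24) := by ring
          _ ≤ n / 8 * D ^ 4 := mul_le_mul_of_nonneg_left hn3 (by positivity)
      exact le_of_mul_le_mul_right h6 (by positivity)
    linarith
  have hexp : 2 * m * Real.log n - ((q : ℝ)⁻¹) ^ 4 * (T m).card ≤ -1 := by
    have h3 : ((q : ℝ)⁻¹) ^ 4 * (T m).card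
        = (m : ℝ) * (((m : ℝ) - 1) / (2 * (q : ℝ) ^ 4)) := by
      have : ((T m).card : ℝ) = m * (m - 1) / 2 := by linarith
      rw [this]
      field_simp
    have h4 : 2 * Real.log n + 1 ≤ ((m : ℝ) - 1) / (2 * (q : ℝ) ^ 4) := by
      rw [le_div_iff₀ (by positivity)]
      linarith
    rw [h3]
    have h5 : (m : ℝ) * (2 * Real.log n + 1) ≤
        (m : ℝ) * (((m : ℝ) - 1) / (2 * (q : ℝ) ^ 4)) :=
      mul_le_mul_of_nonneg_left h4 (by positivity)
    linarith
  calc (n : ℝ) ^ (2 * m) * (1 - ((q : ℝ)⁻¹) ^ 4) ^ (T m).card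
      ≤ Real.exp (2 * m * Real.log n) * Real.exp (-(((q : ℝ)⁻¹) ^ 4 * (T m).card)) := by
        rw [h2]
        exact mul_le_mul_of_nonneg_left h1 (Real.exp_pos _).le
    _ = Real.exp (2 * m * Real.log n - ((q : ℝ)⁻¹) ^ 4 * (T m).card) := by
        rw [← Real.exp_add]
        ring_nf
    _ ≤ Real.exp (-1) := Real.exp_le_exp.2 hexp
    _ < 1 / 2 := by
        have := Real.exp_one_gt_d9
        rw [Real.exp_neg, inv_eq_one_div, div_lt_div_iff₀ (Real.exp_pos 1) two_pos]
        linarith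

/-- Alon, McDiarmid and Reed: for large `D` some finite graph of maximum degree at most `D` has
acyclic chromatic number at least `2 ^ (-11) * D ^ (4/3) / (log D) ^ (1/3)`. -/
theorem exists_graph_large : ∀ᶠ D : ℕ in Filter.atTop,
    ∃ (n : ℕ) (G : SimpleGraph (Fin n)), (∀ v : Fin n, (G.neighborSet v).ncard ≤ D) ∧
      (1 / 2 ^ 11) * gr D ≤ (acyclicChromatic G : ℝ) := by
  have hlog : ∀ᶠ D : ℕ in Filter.atTop, Real.log D ≤ (1 / 2 ^ 27) * (D : ℝ) := by
    have h1 := Real.isLittleO_log_id_atTop.bound (c := 1 / 2 ^ 27) (by positivity)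
    have h2 := tendsto_natCast_atTop_atTop (R := ℝ) |>.eventually h1
    filter_upwards [h2] with D hD
    simp only [id, Real.norm_eq_abs] at hD
    have h3 := le_abs_self (Real.log (D : ℝ))
    have h4 : |(D : ℝ)| = D := abs_of_nonneg (Nat.cast_nonneg D)
    rw [h4] at hD
    linarith
  filter_upwards [hlog, Filter.eventually_ge_atTop 100] with D hDlog hD100
  have hD100' : (100 : ℝ) ≤ D := by exact_mod_cast hD100
  have hDpos : (0 : ℝ) < D := by linarith
  have hcube := gr_cube (D := D) (by linarith)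
  have hgr := gr_nonneg D
  have hL1 : 1 ≤ Real.log D := by
    have h3 : Real.exp 1 ≤ D := by
      have := Real.exp_one_lt_d9
      linarith
    calc (1 : ℝ) = Real.log (Real.exp 1) := (Real.log_exp 1).symm
      _ ≤ _ := Real.log_le_log (Real.exp_pos 1) h3
  set L := Real.log D with hLdef
  -- size of gr
  have hlow : 2 ^ 9 * (D : ℝ) ≤ gr D := by
    have h1 : (2 ^ 9 * (D : ℝ)) ^ 3 ≤ gr D ^ 3 := by
      have h2 : (2 ^ 9 * (D : ℝ)) ^ 3 * L ≤ gr D ^ 3 * L := by
        rw [hcube]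
        calc (2 ^ 9 * (D : ℝ)) ^ 3 * L ≤ (2 ^ 9 * (D : ℝ)) ^ 3 * ((1 / 2 ^ 27) * (D : ℝ)) :=
              mul_le_mul_of_nonneg_left hDlog (by positivity)
          _ = (D : ℝ) ^ 4 := by ring
      exact le_of_mul_le_mul_right h2 (by linarith)
    exact le_of_pow_le_pow_left₀ (by norm_num) hgr h1
  have hup : gr D ≤ (D : ℝ) ^ 2 := by
    have h1 : gr D ^ 3 ≤ ((D : ℝ) ^ 2) ^ 3 := by
      calc gr D ^ 3 = gr D ^ 3 * 1 := by ring
        _ ≤ gr D ^ 3 * L := mul_le_mul_of_nonneg_left hL1 (by positivity)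
        _ = (D : ℝ) ^ 4 := hcube
        _ ≤ (D : ℝ) ^ 6 := pow_le_pow_right₀ (by linarith) (by norm_num)
        _ = _ := by ring
    exact le_of_pow_le_pow_left₀ (by norm_num) (by positivity) h1
  set y : ℝ := (1 / 2 ^ 8) * gr D with hy
  have hyD : 2 * (D : ℝ) ≤ y := by
    rw [hy]
    linarith
  set n : ℕ := ⌊y⌋₊ with hn
  have hy0 : 0 ≤ y := by rw [hy]; positivity
  have hny : (n : ℝ) ≤ y := Nat.floor_le hy0
  have hyn : y < n + 1 := Nat.lt_floor_add_one y
  have hnD : (D : ℝ) ≤ n := by linarith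
  have hnD' : D ≤ n := by exact_mod_cast hnD
  have hnpos : 0 < n := by omega
  have hDpos' : 0 < D := by omega
  set q : ℕ := 8 * n / D + 1 with hq
  have : NeZero q := ⟨by rw [hq]; exact Nat.succ_ne_zero _⟩
  have hq1 : 8 * n ≤ D * q := by
    have := Nat.lt_mul_div_succ (8 * n) hDpos'
    rw [hq]
    omega
  have hq2 : (q : ℝ) * D ≤ 9 * n := by
    have h1 : q * D ≤ 9 * n := by
      rw [hq, add_mul, one_mul]
      have := Nat.div_mul_le_self (8 * n) D
      omega
    exact_mod_cast h1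
  have hlogn : Real.log n ≤ 2 * L := by
    have h1 : (n : ℝ) ≤ (D : ℝ) ^ 2 := by
      have : y ≤ gr D := by rw [hy]; linarith
      linarith
    calc Real.log n ≤ Real.log ((D : ℝ) ^ 2) :=
          Real.log_le_log (by exact_mod_cast hnpos) h1
      _ = 2 * L := by rw [Real.log_pow, hLdef]; norm_num
  have hn3 : (n : ℝ) ^ 3 * L * 2 ^ 24 ≤ (D : ℝ) ^ 4 := by
    have h1 : (n : ℝ) ^ 3 ≤ y ^ 3 := pow_le_pow_left₀ (by positivity) hny 3
    calc (n : ℝ) ^ 3 * L * 2 ^ 24 ≤ y ^ 3 * L * 2 ^ 24 := by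
          apply mul_le_mul_of_nonneg_right _ (by positivity)
          exact mul_le_mul_of_nonneg_right h1 (by linarith)
      _ = gr D ^ 3 * L := by rw [hy]; ring
      _ = _ := hcube
  obtain ⟨G, hG1, hG2⟩ := exists_graph n q (n / 4) D hnpos
    (hcount_of (D := (D : ℝ)) hL1 hDpos (by omega) (by omega) hlogn hn3 hq2) hq1 (by omega)
  refine ⟨n, G, hG1, ?_⟩
  obtain ⟨C, hC⟩ := exists_acyclicColouring_acyclicChromatic G
  have h1 : n < 4 * acyclicChromatic G := by
    by_contra hcon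
    exact hG2 _ (not_lt.1 hcon) C hC
  have h2 : (n : ℝ) + 1 ≤ 4 * acyclicChromatic G := by exact_mod_cast h1
  have h3 : y ≤ 4 * acyclicChromatic G := by linarith
  rw [hy] at h3
  linarith

end asymptotics

end Lower

end Pool.Agent.Lib.Acyc
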